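import Mathlib
import Pool.Agent.R32.Draw

/-!
# Complements of even subdivisions of planar graphs are not always `{L}`-graphs

The planar graph is the disjoint union of three cycles of length five. In an `{L}`-representation
of the complement of an even subdivision, two shapes whose corners are incomparable in the
coordinatewise order are disjoint only if the horizontal arm of one of them ends to the left of the
other shape, or the vertical arm of one of them ends below the other shape. Edges of each of these
two kinds occur in at most one component, and a component without such edges is the comparability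
graph of a strict order, so it has no odd cycle unless it has a triangle.
-/

set_option autoImplicit false

namespace Pool.Agent.Results.MP_401231_co.NoEvenSubdivisionL

/-- An L-shape: the vertical segment from the corner `(x, y)` up to `(x, t)` and the horizontal
segment from the corner `(x, y)` to the right to `(r, y)`, both of positive length. -/
structure LShape where
  /-- first coordinate of the corner -/
  x : ℝ
  /-- second coordinate of the corner -/
  y : ℝ
  /-- second coordinate of the upper end of the vertical arm -/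
  t : ℝ
  /-- first coordinate of the right end of the horizontal arm -/
  r : ℝ
  /-- the vertical arm has positive length -/
  y_lt : y < t
  /-- the horizontal arm has positive length -/
  x_lt : x < r

/-- The set of points of an L-shape. -/
def LShape.carrier (L : LShape) : Set (ℝ × ℝ) :=
  segment ℝ (L.x, L.y) (L.x, L.t) ∪ segment ℝ (L.x, L.y) (L.r, L.y)

/-- `H` is an `{L}`-graph: its vertices can be assigned L-shapes so that two distinct vertices are
adjacent exactly when their shapes have nonempty intersection. -/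
def IsLGraph {W : Type*} (H : SimpleGraph W) : Prop :=
  ∃ s : W → LShape, ∀ a b : W, a ≠ b → (H.Adj a b ↔ ((s a).carrier ∩ (s b).carrier).Nonempty)

/-- `G'` is an even subdivision of `G`: the vertices `v` of `G` are identified with pairwise
distinct vertices `f v` of `G'`, every edge `uv` of `G` is replaced by a path `P u v` of `G'` from
`f u` to `f v` whose length is odd (so it has an even number of inner vertices); the inner vertices
of the paths are new (not of the form `f x`), the paths of different edges share no inner vertex,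
and every vertex and every edge of `G'` arises in this way. -/
def IsEvenSubdivision {V W : Type*} (G : SimpleGraph V) (G' : SimpleGraph W) : Prop :=
  ∃ (f : V → W) (P : ∀ u v : V, G.Adj u v → G'.Walk (f u) (f v)),
    Function.Injective f ∧
    (∀ u v (h : G.Adj u v), (P u v h).IsPath ∧ Odd (P u v h).length) ∧
    (∀ u v (h : G.Adj u v), P v u h.symm = (P u v h).reverse) ∧
    (∀ u v (h : G.Adj u v) x, f x ∈ (P u v h).support → x = u ∨ x = v) ∧
    (∀ u v (h : G.Adj u v) u' v' (h' : G.Adj u' v'), ∀ w ∈ (P u v h).support,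
      w ∈ (P u' v' h').support → w ∈ Set.range f ∨ s(u, v) = s(u', v')) ∧
    (∀ w, w ∈ Set.range f ∨ ∃ u v, ∃ h : G.Adj u v, w ∈ (P u v h).support) ∧
    (∀ e ∈ G'.edgeSet, ∃ u v, ∃ h : G.Adj u v, e ∈ (P u v h).edges)

/-- `p` is a straight-line crossing-free drawing of `G`: the vertices go to pairwise distinct
points, the closed segment of an edge contains no vertex other than the ends of the edge, and the
segments of two different edges meet at most in (the image of) a common end. -/
def IsDrawing {V : Type*} (G : SimpleGraph V) (p : V → ℝ × ℝ) : Prop :=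
  Function.Injective p ∧
  (∀ u v w : V, G.Adj u v → p w ∈ segment ℝ (p u) (p v) → w = u ∨ w = v) ∧
  (∀ u v x y : V, G.Adj u v → G.Adj x y → s(u, v) ≠ s(x, y) →
    ∀ q, q ∈ segment ℝ (p u) (p v) → q ∈ segment ℝ (p x) (p y) →
      ∃ w, (w = u ∨ w = v) ∧ (w = x ∨ w = y) ∧ q = p w)

/-- `G` is planar: it has a straight-line crossing-free drawing in the plane. -/
def IsPlanar {V : Type*} (G : SimpleGraph V) : Prop := ∃ p : V → ℝ × ℝ, IsDrawing G p

/-! ### Even subdivisions fold onto the graph -/

section Fold

variable {V W : Type*} {G : SimpleGraph V} {G' : SimpleGraph W}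

theorem getVert_inj {a b : W} {p : G'.Walk a b} (hp : p.IsPath) {i j : ℕ} (hi : i ≤ p.length)
    (hj : j ≤ p.length) (h : p.getVert i = p.getVert j) : i = j :=
  hp.getVert_injOn hi hj h

theorem fold (h : IsEvenSubdivision G G') : ∃ (φ : G' →g G) (f : V → W),
    (∀ v, φ (f v) = v) ∧ ∀ u v, G.Adj u v → ∃ p : G'.Walk (f u) (f v), Odd p.length := by
  classical
  obtain ⟨f, P, hf, hpath, hrev, hend, hdis, hvert, hedge⟩ := h
  -- position relation
  let R : W → V → Prop := fun w x => w = f x ∨ ∃ u v, ∃ h : G.Adj u v, ∃ j ≤ (P u v h).length,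
    (P u v h).getVert j = w ∧ ((Even j ∧ x = u) ∨ (¬ Even j ∧ x = v))
  have hR1 : ∀ u v (h : G.Adj u v) j, j ≤ (P u v h).length → ∀ x, (P u v h).getVert j = f x →
      ((Even j ∧ x = u) ∨ (¬ Even j ∧ x = v)) := by
    intro u v h j hj x hx
    have hmem : f x ∈ (P u v h).support := by rw [← hx]; exact (P u v h).getVert_mem_support j
    rcases hend u v h x hmem with rfl | rfl
    · have h0 : (P x v h).getVert 0 = f x := (P x v h).getVert_zero
      have : j = 0 := getVert_inj (hpath x v h).1 hj (Nat.zero_le _) (hx.trans h0.symm)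
      subst this
      exact Or.inl ⟨by simp, rfl⟩
    · have h0 : (P u x h).getVert (P u x h).length = f x := (P u x h).getVert_length
      have : j = (P u x h).length := getVert_inj (hpath u x h).1 hj le_rfl (hx.trans h0.symm)
      subst this
      exact Or.inr ⟨Nat.not_even_iff_odd.2 (hpath u x h).2, rfl⟩
  have hRfun : ∀ w x y, R w x → R w y → x = y := by
    intro w x y hx hy
    rcases hx with rfl | ⟨u, v, h, j, hj, hw, hx⟩
    · rcases hy with hy | ⟨u, v, h, j, hj, hw, hy⟩
      · exact hf hy
      · have := hR1 u v h j hj x hw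
        rcases this with ⟨a1, a2⟩ | ⟨a1, a2⟩ <;> rcases hy with ⟨b1, b2⟩ | ⟨b1, b2⟩
        · rw [a2, b2]
        · exact absurd a1 b1
        · exact absurd b1 a1
        · rw [a2, b2]
    · rcases hy with rfl | ⟨u', v', h', j', hj', hw', hy⟩
      · have := hR1 u v h j hj y hw
        rcases this with ⟨a1, a2⟩ | ⟨a1, a2⟩ <;> rcases hx with ⟨b1, b2⟩ | ⟨b1, b2⟩
        · rw [a2, b2]
        · exact absurd a1 b1
        · exact absurd b1 a1
        · rw [a2, b2]
      · by_cases hrange : w ∈ Set.range f
        · obtain ⟨z, rfl⟩ := hrange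
          have e1 := hR1 u v h j hj z hw
          have e2 := hR1 u' v' h' j' hj' z hw'
          have e3 : x = z := by
            rcases e1 with ⟨a1, a2⟩ | ⟨a1, a2⟩ <;> rcases hx with ⟨b1, b2⟩ | ⟨b1, b2⟩
            · rw [a2, b2]
            · exact absurd a1 b1
            · exact absurd b1 a1
            · rw [a2, b2]
          have e4 : y = z := by
            rcases e2 with ⟨a1, a2⟩ | ⟨a1, a2⟩ <;> rcases hy with ⟨b1, b2⟩ | ⟨b1, b2⟩
            · rw [a2, b2]
            · exact absurd a1 b1
            · exact absurd b1 a1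
            · rw [a2, b2]
          rw [e3, e4]
        · have hs : s(u, v) = s(u', v') := by
            have h1 : w ∈ (P u v h).support := by rw [← hw]; exact (P u v h).getVert_mem_support j
            have h2 : w ∈ (P u' v' h').support := by
              rw [← hw']; exact (P u' v' h').getVert_mem_support j'
            exact (hdis u v h u' v' h' w h1 h2).resolve_left hrange
          rw [Sym2.eq_iff] at hs
          rcases hs with ⟨rfl, rfl⟩ | ⟨rfl, rfl⟩
          · have : j = j' := getVert_inj (hpath u v h).1 hj hj' (hw.trans hw'.symm)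
            subst this
            rcases hx with ⟨a1, a2⟩ | ⟨a1, a2⟩ <;> rcases hy with ⟨b1, b2⟩ | ⟨b1, b2⟩
            · rw [a2, b2]
            · exact absurd a1 b1
            · exact absurd b1 a1
            · rw [a2, b2]
          · -- reversed path
            have hr := hrev u v h
            have hlen : (P v u h').length = (P u v h).length := by
              have : P v u h' = (P u v h).reverse := hr
              rw [this, SimpleGraph.Walk.length_reverse]
            have hw2 : (P u v h).getVert ((P u v h).length - j') = w := by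
              have : P v u h' = (P u v h).reverse := hr
              rw [this, SimpleGraph.Walk.getVert_reverse] at hw'
              exact hw'
            have hj2 : j = (P u v h).length - j' :=
              getVert_inj (hpath u v h).1 hj (Nat.sub_le _ _) (hw.trans hw2.symm)
            have hj'2 : j' ≤ (P u v h).length := by rw [← hlen]; exact hj'
            have hodd := (hpath u v h).2
            have hpar : Even j ↔ ¬ Even j' := by
              have hsum : j + j' = (P u v h).length := by omega
              rw [← hsum] at hodd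
              rw [Nat.odd_add] at hodd
              constructor
              · intro he ho
                have := hodd.2 ho
                exact (Nat.not_even_iff_odd.2 this) he
              · intro hne
                by_contra hc
                exact hne (hodd.1 (Nat.not_even_iff_odd.1 hc))
            rcases hx with ⟨a1, a2⟩ | ⟨a1, a2⟩ <;> rcases hy with ⟨b1, b2⟩ | ⟨b1, b2⟩
            · exact absurd b1 (hpar.1 a1)
            · rw [a2, b2]
            · rw [a2, b2]
            · exact absurd (hpar.2 b1) a1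
  have hRtot : ∀ w, ∃ x, R w x := by
    intro w
    rcases hvert w with ⟨x, rfl⟩ | ⟨u, v, h, hw⟩
    · exact ⟨x, Or.inl rfl⟩
    · obtain ⟨j, hj, hjl⟩ := (SimpleGraph.Walk.mem_support_iff_exists_getVert).1 hw
      by_cases he : Even j
      · exact ⟨u, Or.inr ⟨u, v, h, j, hjl, hj, Or.inl ⟨he, rfl⟩⟩⟩
      · exact ⟨v, Or.inr ⟨u, v, h, j, hjl, hj, Or.inr ⟨he, rfl⟩⟩⟩
  choose φ hφ using hRtot
  have hval : ∀ u v (h : G.Adj u v) j, j ≤ (P u v h).length →
      φ ((P u v h).getVert j) = if Even j then u else v := by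
    intro u v h j hj
    apply hRfun _ _ _ (hφ _)
    refine Or.inr ⟨u, v, h, j, hj, rfl, ?_⟩
    by_cases he : Even j
    · exact Or.inl ⟨he, by simp [he]⟩
    · exact Or.inr ⟨he, by simp [he]⟩
  have hhom : ∀ a b, G'.Adj a b → G.Adj (φ a) (φ b) := by
    intro a b hab
    obtain ⟨u, v, h, he⟩ := hedge s(a, b) hab
    obtain ⟨i, hi, hi2⟩ : ∃ i, i < (P u v h).length ∧
        s((P u v h).getVert i, (P u v h).getVert (i + 1)) = s(a, b) := by
      rw [SimpleGraph.Walk.edges, List.mem_map] at he
      obtain ⟨d, hd, hde⟩ := he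
      obtain ⟨i, hi, hdi⟩ := List.mem_iff_getElem.1 hd
      rw [SimpleGraph.Walk.length_darts] at hi
      refine ⟨i, hi, ?_⟩
      rw [← hde, ← hdi, SimpleGraph.Walk.darts_getElem_eq_getVert]
      rfl
    have e1 := hval u v h i hi.le
    have e2 := hval u v h (i + 1) hi
    have key : G.Adj (φ ((P u v h).getVert i)) (φ ((P u v h).getVert (i + 1))) := by
      rw [e1, e2]
      by_cases he : Even i
      · have : ¬ Even (i + 1) := by rw [Nat.even_add_one]; simpa using he
        simp [he, this, h]
      · have : Even (i + 1) := by rw [Nat.even_add_one]; exact he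
        simp [he, this, h.symm]
    rw [Sym2.eq_iff] at hi2
    rcases hi2 with ⟨e3, e4⟩ | ⟨e3, e4⟩
    · rw [e3, e4] at key; exact key
    · rw [e3, e4] at key; exact key.symm
  refine ⟨⟨φ, fun {a b} h => hhom a b h⟩, f, ?_, ?_⟩
  · intro v
    exact hRfun _ _ _ (hφ (f v)) (Or.inl rfl)
  · intro u v h
    exact ⟨P u v h, (hpath u v h).2⟩

end Fold

/-- Sanity check of the definition: every graph is an even subdivision of itself. -/
theorem isEvenSubdivision_self {V : Type*} (G : SimpleGraph V) : IsEvenSubdivision G G := by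
  refine ⟨id, fun u v h => SimpleGraph.Walk.cons h SimpleGraph.Walk.nil,
    Function.injective_id, ?_, ?_, ?_, ?_, ?_, ?_⟩
  · intro u v h
    refine ⟨?_, by simp⟩
    rw [SimpleGraph.Walk.cons_isPath_iff]
    simp [h.ne]
  · intro u v h
    simp
  · intro u v h x hx
    simpa using hx
  · intro u v h u' v' h' w _ _
    exact Or.inl ⟨w, rfl⟩
  · intro w
    exact Or.inl ⟨w, rfl⟩
  · intro e he
    induction e with
    | _ a b => exact ⟨a, b, he, by simp⟩

/-! ### L-shapes -/

theorem mem_carrier {L : LShape} {z : ℝ × ℝ} :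
    z ∈ L.carrier ↔ (z.1 = L.x ∧ L.y ≤ z.2 ∧ z.2 ≤ L.t) ∨ (z.2 = L.y ∧ L.x ≤ z.1 ∧ z.1 ≤ L.r) := by
  obtain ⟨a, b⟩ := z
  have h1 := L.y_lt
  have h2 := L.x_lt
  rw [LShape.carrier, Set.mem_union, ← Prod.image_mk_segment_right, ← Prod.image_mk_segment_left,
    segment_eq_Icc h1.le, segment_eq_Icc h2.le]
  simp only [Set.mem_image, Set.mem_Icc, Prod.mk.injEq]
  constructor
  · rintro (⟨y, hy, rfl, rfl⟩ | ⟨x, hx, rfl, rfl⟩)
    · exact Or.inl ⟨rfl, hy⟩
    · exact Or.inr ⟨rfl, hx⟩
  · rintro (⟨h, hy⟩ | ⟨h, hx⟩)
    · exact Or.inl ⟨b, hy, h.symm, rfl⟩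
    · exact Or.inr ⟨a, hx, rfl, h.symm⟩

theorem inter_of {L M : LShape} (h1 : L.x ≤ M.x) (h2 : M.x ≤ L.r) (h3 : M.y ≤ L.y)
    (h4 : L.y ≤ M.t) : (L.carrier ∩ M.carrier).Nonempty :=
  ⟨(M.x, L.y), mem_carrier.2 (Or.inr ⟨rfl, h1, h2⟩), mem_carrier.2 (Or.inl ⟨rfl, h3, h4⟩)⟩

theorem not_inter_r {L M : LShape} (h : L.r < M.x) : ¬ (L.carrier ∩ M.carrier).Nonempty := by
  rintro ⟨z, h1, h2⟩
  rw [mem_carrier] at h1 h2
  have a1 := L.x_lt
  have a2 := M.x_lt
  rcases h1 with ⟨b1, b2, b3⟩ | ⟨b1, b2, b3⟩ <;> rcases h2 with ⟨c1, c2, c3⟩ | ⟨c1, c2, c3⟩ <;>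
    linarith

theorem not_inter_t {L M : LShape} (h : L.t < M.y) : ¬ (L.carrier ∩ M.carrier).Nonempty := by
  rintro ⟨z, h1, h2⟩
  rw [mem_carrier] at h1 h2
  have a1 := L.y_lt
  have a2 := M.y_lt
  rcases h1 with ⟨b1, b2, b3⟩ | ⟨b1, b2, b3⟩ <;> rcases h2 with ⟨c1, c2, c3⟩ | ⟨c1, c2, c3⟩ <;>
    linarith

theorem not_inter_dom {L M : LShape} (h : L.x < M.x) (h' : L.y < M.y) :
    ¬ (L.carrier ∩ M.carrier).Nonempty := by
  rintro ⟨z, h1, h2⟩
  rw [mem_carrier] at h1 h2
  rcases h1 with ⟨b1, b2, b3⟩ | ⟨b1, b2, b3⟩ <;> rcases h2 with ⟨c1, c2, c3⟩ | ⟨c1, c2, c3⟩ <;>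
    linarith

theorem cases_of_not_inter {L M : LShape} (h : ¬ (L.carrier ∩ M.carrier).Nonempty) :
    (L.x < M.x ∧ L.y < M.y) ∨ (M.x < L.x ∧ M.y < L.y) ∨ L.r < M.x ∨ M.r < L.x ∨
      L.t < M.y ∨ M.t < L.y := by
  by_contra hc
  push Not at hc
  obtain ⟨c1, c2, c3, c4, c5, c6⟩ := hc
  have h' : ¬ (M.carrier ∩ L.carrier).Nonempty := by rwa [Set.inter_comm]
  rcases le_total L.x M.x with hx | hx
  · by_cases hy : M.y ≤ L.y
    · exact h (inter_of hx c3 hy c6)
    · push Not at hy
      have hx' : M.x ≤ L.x := by
        by_contra hh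
        push Not at hh
        exact absurd (c1 hh) (not_le.2 hy)
      exact h' (inter_of hx' c4 hy.le c5)
  · by_cases hy : L.y ≤ M.y
    · exact h' (inter_of hx c4 hy c5)
    · push Not at hy
      have hx' : L.x ≤ M.x := by
        by_contra hh
        push Not at hh
        exact absurd (c2 hh) (not_le.2 hy)
      exact h (inter_of hx' c3 hy.le c6)

/-- a walk whose edges all change the colour -/
theorem parity {W : Type*} {G' : SimpleGraph W} (K : W → Prop) (C : W → Prop)
    (hK : ∀ a b, G'.Adj a b → K a → K b) (hC : ∀ a b, G'.Adj a b → K a → (C a ↔ ¬ C b))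
    {a b : W} (p : G'.Walk a b) (ha : K a) : (Even p.length ↔ (C a ↔ C b)) := by
  induction p with
  | nil => simp
  | cons h p ih =>
    rw [SimpleGraph.Walk.length_cons, Nat.even_add_one, ih (hK _ _ h ha)]
    have := hC _ _ h ha
    tauto

/-- Main lemma: a graph that maps homomorphically to a triangle-free graph with three components
and has an odd closed walk over each of them is not the complement of an `{L}`-graph. -/
theorem main_lemma {W V : Type*} {G' : SimpleGraph W} {G : SimpleGraph V} (φ : G' →g G)
    (htri : ∀ a b c, G.Adj a b → G.Adj b c → ¬ G.Adj a c) (κ : V → Fin 3)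
    (hκ : ∀ a b, G.Adj a b → κ a = κ b)
    (hodd : ∀ k : Fin 3, ∃ a : W, κ (φ a) = k ∧ ∃ p : G'.Walk a a, Odd p.length) :
    ¬ IsLGraph G'ᶜ := by
  rintro ⟨s, hs⟩
  have hadj : ∀ a b, a ≠ b → (G'.Adj a b ↔ ¬ ((s a).carrier ∩ (s b).carrier).Nonempty) := by
    intro a b hab
    have := hs a b hab
    rw [SimpleGraph.compl_adj] at this
    tauto
  have htri' : ∀ a b c, G'.Adj a b → G'.Adj b c → ¬ G'.Adj a c := by
    intro a b c h1 h2 h3
    exact htri _ _ _ (φ.map_rel h1) (φ.map_rel h2) (φ.map_rel h3)
  have hκ' : ∀ a b, G'.Adj a b → κ (φ a) = κ (φ b) := fun a b h => hκ _ _ (φ.map_rel h)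
  -- each component contains a cut edge
  have hcut : ∀ k : Fin 3, ∃ a b, G'.Adj a b ∧ κ (φ a) = k ∧
      ((s a).r < (s b).x ∨ (s a).t < (s b).y) := by
    intro k
    by_contra hcon
    push Not at hcon
    obtain ⟨a, ha, p, hp⟩ := hodd k
    have hdom : ∀ a b, G'.Adj a b → κ (φ a) = k →
        ((s a).x < (s b).x ∧ (s a).y < (s b).y) ∨ ((s b).x < (s a).x ∧ (s b).y < (s a).y) := by
      intro a b hab hk
      have h1 := hcon a b hab hk
      have h2 := hcon b a hab.symm (by rw [← hκ' a b hab]; exact hk)
      have h3 := cases_of_not_inter ((hadj a b hab.ne).1 hab)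
      rcases h3 with h3 | h3 | h3 | h3 | h3 | h3
      · exact Or.inl h3
      · exact Or.inr h3
      · exact absurd h3 (not_lt.2 h1.1)
      · exact absurd h3 (not_lt.2 h2.1)
      · exact absurd h3 (not_lt.2 h1.2)
      · exact absurd h3 (not_lt.2 h2.2)
    have hpar := parity (G' := G') (fun a => κ (φ a) = k)
      (fun a => ∃ u, G'.Adj u a ∧ (s u).x < (s a).x ∧ (s u).y < (s a).y)
      (fun a b hab hk => by rw [← hκ' a b hab]; exact hk) ?_ p ha
    · rw [iff_true_right Iff.rfl] at hpar
      exact (Nat.not_even_iff_odd.2 hp) hpar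
    · intro a b hab hk
      have hup : ∀ a b, G'.Adj a b → ((s a).x < (s b).x ∧ (s a).y < (s b).y) →
          ¬ ∃ u, G'.Adj u a ∧ (s u).x < (s a).x ∧ (s u).y < (s a).y := by
        rintro a b hab ⟨h1, h2⟩ ⟨u, hu, h3, h4⟩
        have hne : u ≠ b := by
          rintro rfl
          linarith
        have : G'.Adj u b :=
          (hadj u b hne).2 (not_inter_dom (h3.trans h1) (h4.trans h2))
        exact htri' u a b hu hab this
      rcases hdom a b hab hk with h | h
      · constructor
        · intro hc
          exact absurd hc (hup a b hab h)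
        · intro hc
          exact absurd ⟨a, hab, h⟩ hc
      · constructor
        · intro _
          exact hup b a hab.symm h
        · intro _
          exact ⟨b, hab.symm, h⟩
  choose a b hab hk hcase using hcut
  -- two components with cut edges of the same kind
  have hr : ∀ k l : Fin 3, k ≠ l → (s (a k)).r < (s (b k)).x → (s (a l)).r < (s (b l)).x →
      False := by
    have key : ∀ k l : Fin 3, k ≠ l → (s (a k)).r < (s (b k)).x → (s (b k)).x ≤ (s (b l)).x →
        False := by
      intro k l hkl h1 h2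
      have h3 : (s (a k)).r < (s (b l)).x := lt_of_lt_of_le h1 h2
      have hne : a k ≠ b l := by
        intro h
        rw [h] at h3
        exact absurd (s (b l)).x_lt (not_lt.2 h3.le)
      have h4 : G'.Adj (a k) (b l) := (hadj _ _ hne).2 (not_inter_r h3)
      have h5 := hκ' _ _ h4
      rw [hk k, ← hκ' _ _ (hab l), hk l] at h5
      exact hkl h5
    intro k l hkl h1 h2
    rcases le_total (s (b k)).x (s (b l)).x with h | h
    · exact key k l hkl h1 h
    · exact key l k hkl.symm h2 h
  have ht : ∀ k l : Fin 3, k ≠ l → (s (a k)).t < (s (b k)).y → (s (a l)).t < (s (b l)).y →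
      False := by
    have key : ∀ k l : Fin 3, k ≠ l → (s (a k)).t < (s (b k)).y → (s (b k)).y ≤ (s (b l)).y →
        False := by
      intro k l hkl h1 h2
      have h3 : (s (a k)).t < (s (b l)).y := lt_of_lt_of_le h1 h2
      have hne : a k ≠ b l := by
        intro h
        rw [h] at h3
        exact absurd (s (b l)).y_lt (not_lt.2 h3.le)
      have h4 : G'.Adj (a k) (b l) := (hadj _ _ hne).2 (not_inter_t h3)
      have h5 := hκ' _ _ h4
      rw [hk k, ← hκ' _ _ (hab l), hk l] at h5
      exact hkl h5
    intro k l hkl h1 h2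
    rcases le_total (s (b k)).y (s (b l)).y with h | h
    · exact key k l hkl h1 h
    · exact key l k hkl.symm h2 h
  have n01 : (0 : Fin 3) ≠ 1 := by decide
  have n02 : (0 : Fin 3) ≠ 2 := by decide
  have n12 : (1 : Fin 3) ≠ 2 := by decide
  rcases hcase 0 with h0 | h0 <;> rcases hcase 1 with h1 | h1 <;> rcases hcase 2 with h2 | h2
  · exact hr 0 1 n01 h0 h1
  · exact hr 0 1 n01 h0 h1
  · exact hr 0 2 n02 h0 h2
  · exact ht 1 2 n12 h1 h2
  · exact hr 1 2 n12 h1 h2
  · exact ht 0 2 n02 h0 h2
  · exact ht 0 1 n01 h0 h1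
  · exact ht 0 1 n01 h0 h1

/-! ### The graph: three disjoint cycles of length five -/

/-- the edges of the three cycles `5 k, 5 k + 1, …, 5 k + 4` (`k = 0, 1, 2`) -/
def E : List (Fin 15 × Fin 15) :=
  [(0, 1), (1, 2), (2, 3), (3, 4), (4, 0), (5, 6), (6, 7), (7, 8), (8, 9), (9, 5),
    (10, 11), (11, 12), (12, 13), (13, 14), (14, 10)]

/-- the disjoint union of three cycles of length five -/
def threeC5 : SimpleGraph (Fin 15) where
  Adj u v := (u, v) ∈ E ∨ (v, u) ∈ E
  symm := ⟨fun _ _ h => h.symm⟩
  loopless := ⟨by decide⟩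

instance : DecidableRel threeC5.Adj := fun u v =>
  inferInstanceAs (Decidable ((u, v) ∈ E ∨ (v, u) ∈ E))

/-- coordinates of a drawing -/
def coord (v : Fin 15) : ℤ × ℤ :=
  ((10 * (v.val / 5) + v.val % 5 : ℕ), ((v.val % 5) ^ 2 : ℕ))

theorem planar : IsPlanar threeC5 := by
  refine ⟨fun v => Pool.Agent.R32.toR (coord v), ?_⟩
  refine Pool.Agent.R32.isDrawing_of_check threeC5 E coord (fun u v h => h) ?_ ?_ ?_
  · decide +kernel
  · decide +kernel
  · decide +kernel

/-- **Negative answer to Q1.** There is a planar graph such that for every even subdivision of it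
the complement is not an `{L}`-graph. -/
theorem result : ∃ G : SimpleGraph (Fin 15), IsPlanar G ∧
    ∀ (W : Type) (G' : SimpleGraph W), IsEvenSubdivision G G' → ¬ IsLGraph G'ᶜ := by
  refine ⟨threeC5, planar, fun W G' hG' => ?_⟩
  obtain ⟨φ, f, hφ, hwalk⟩ := fold hG'
  refine main_lemma φ ?_ (fun v => ⟨v.val / 5, by omega⟩) ?_ ?_
  · decide +kernel
  · decide +kernel
  · intro k
    have key : ∀ v0 v1 v2 v3 v4 : Fin 15, threeC5.Adj v0 v1 → threeC5.Adj v1 v2 →
        threeC5.Adj v2 v3 → threeC5.Adj v3 v4 → threeC5.Adj v4 v0 →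
        ∃ p : G'.Walk (f v0) (f v0), Odd p.length := by
      intro v0 v1 v2 v3 v4 h0 h1 h2 h3 h4
      obtain ⟨p0, o0⟩ := hwalk _ _ h0
      obtain ⟨p1, o1⟩ := hwalk _ _ h1
      obtain ⟨p2, o2⟩ := hwalk _ _ h2
      obtain ⟨p3, o3⟩ := hwalk _ _ h3
      obtain ⟨p4, o4⟩ := hwalk _ _ h4
      refine ⟨(((p0.append p1).append p2).append p3).append p4, ?_⟩
      simp only [SimpleGraph.Walk.length_append]
      exact (((o0.add_odd o1).add_odd o2).add_odd o3).add_odd o4
    fin_cases k
    · exact ⟨f 0, by rw [hφ]; rfl, key 0 1 2 3 4 (by decide) (by decide) (by decide) (by decide)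
        (by decide)⟩
    · exact ⟨f 5, by rw [hφ]; rfl, key 5 6 7 8 9 (by decide) (by decide) (by decide) (by decide)
        (by decide)⟩
    · exact ⟨f 10, by rw [hφ]; rfl, key 10 11 12 13 14 (by decide) (by decide) (by decide)
        (by decide) (by decide)⟩

end Pool.Agent.Results.MP_401231_co.NoEvenSubdivisionL
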